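import Mathlib

set_option autoImplicit false
set_option maxHeartbeats 400000

namespace Pool.Agent.Results.MP_48c274_ag.TwoTwoFour

open MvPolynomial Finsupp
open scoped MonomialOrder

variable {k : Type} [Field k]

/-- Initial ideal for the lexicographic order with `X 0 > X 1 > ...`. -/
noncomputable def inLex {n : ℕ} (I : Ideal (MvPolynomial (Fin n) k)) :
    Ideal (MvPolynomial (Fin n) k) :=
  Ideal.span ((fun s => monomial s (1 : k)) ''
    {s | ∃ p ∈ I, p ≠ 0 ∧ MonomialOrder.lex.degree p = s})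

/-- Lexsegment condition on the monomials of an ideal. -/
def IsLexseg {n : ℕ} (L : Ideal (MvPolynomial (Fin n) k)) : Prop :=
  ∀ u v : Fin n →₀ ℕ, u.degree = v.degree → monomial u (1 : k) ∈ L → toLex u < toLex v →
    monomial v (1 : k) ∈ L

lemma hom {p : MvPolynomial (Fin 4) k} {n : ℕ} :
    p.IsHomogeneous n ↔ ∀ d, coeff d p ≠ 0 → d.degree = n := by
  simp only [IsHomogeneous, IsWeightedHomogeneous, degree_eq_weight_one]
  rfl

lemma hc_mul {f : MvPolynomial (Fin 4) k} {d : ℕ} (hf : f.IsHomogeneous d) (e : ℕ)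
    (A : MvPolynomial (Fin 4) k) :
    ∃ B : MvPolynomial (Fin 4) k, B.IsHomogeneous e ∧ homogeneousComponent (e + d) (A * f) = B * f := by
  induction A using MvPolynomial.induction_on' with
  | monomial u c =>
    rw [homogeneousComponent_of_mem ((isHomogeneous_monomial c rfl).mul hf)]
    split_ifs with h
    · exact ⟨_, isHomogeneous_monomial c (by omega), rfl⟩
    · exact ⟨0, isHomogeneous_zero _ _ _, by simp⟩
  | add p q hp hq =>
    obtain ⟨B, h1, h2⟩ := hp
    obtain ⟨B', h3, h4⟩ := hq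
    exact ⟨B + B', h1.add h3, by rw [add_mul, map_add, h2, h4, add_mul]⟩

lemma ev {p : MvPolynomial (Fin 4) k} {n : ℕ} (h : p.IsHomogeneous n) :
    eval (Pi.single 1 1) p = coeff (single 1 n) p := by
  rw [eval_eq', Finset.sum_eq_single (single 1 n)]
  · simp [Fin.prod_univ_four]
  · intro d h1 h2
    have h3 := hom.1 h d (MvPolynomial.mem_support_iff.1 h1)
    rw [degree_eq_sum, Fin.sum_univ_four] at h3
    have : d 0 ≠ 0 ∨ d 2 ≠ 0 ∨ d 3 ≠ 0 := by
      by_contra h4
      apply h2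
      ext i
      fin_cases i <;> simp <;> omega
    rcases this with h | h | h <;> simp [Fin.prod_univ_four, h]
  · intro h1
    simp [MvPolynomial.notMem_support_iff.1 h1]

lemma dec {p : MvPolynomial (Fin 4) k} {n : ℕ} (h : p.IsHomogeneous (n + 1)) :
    ∃ g c : MvPolynomial (Fin 4) k, p = X 0 * g + c ∧ g.IsHomogeneous n ∧
      c.IsHomogeneous (n + 1) ∧ c.degreeOf 0 = 0 ∧ (∀ d, coeff d g = coeff (single 0 1 + d) p) ∧
      eval (Pi.single 1 1) c = eval (Pi.single 1 1) p := by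
  have h1 := (divMonomial_add_modMonomial_single p 0).symm
  have h2 : ∀ d, coeff d (p.modMonomial (single 0 1)) ≠ 0 → d 0 = 0 ∧ coeff d p ≠ 0 := by
    intro d hd
    have h2 : ¬ single 0 1 ≤ d := fun h => hd (coeff_modMonomial_of_le p h)
    rw [coeff_modMonomial_of_not_le p h2] at hd
    exact ⟨by simpa using h2, hd⟩
  refine ⟨_, _, h1, hom.2 fun d hd => ?_, hom.2 fun d hd => hom.1 h d (h2 d hd).2, ?_,
    coeff_divMonomial _ _, ?_⟩
  · rw [coeff_divMonomial] at hd
    have := hom.1 h _ hd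
    rw [map_add, degree_single] at this
    omega
  · exact Nat.le_zero.1 (degreeOf_le_iff.2 fun d hd => (h2 d (MvPolynomial.mem_support_iff.1 hd)).1.le)
  · conv_rhs => rw [h1]
    simp

lemma quad {p : MvPolynomial (Fin 4) k} (h : p.IsHomogeneous 2) :
    ∃ b c : MvPolynomial (Fin 4) k, p = X 0 * (X 0 * C (coeff (single 0 2) p) + b) + c ∧
      b.IsHomogeneous 1 ∧ c.IsHomogeneous 2 ∧ b.degreeOf 0 = 0 ∧ c.degreeOf 0 = 0 ∧
      eval (Pi.single 1 1) b = coeff (single 0 1 + single 1 1) p ∧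
      eval (Pi.single 1 1) c = coeff (single 1 2) p := by
  obtain ⟨g, c, h1, h2, h3, h4, h5, h6⟩ := dec h
  obtain ⟨a, b, h7, h8, h9, h10, h11, h12⟩ := dec h2
  refine ⟨b, c, ?_, h9, h3, h10, h4, by rw [h12, ev h2, h5], by rw [h6, ev h]⟩
  rw [← homogeneousComponent_eq_self h8, homogeneousComponent_zero, h11, h5, add_zero,
    ← single_add] at h7
  rw [← h7, ← h1]

theorem result (k : Type) [Field k] :
    ∃ Δ : MvPolynomial (Fin 3 × (Fin 4 →₀ ℕ)) k,
      (∃ f : Fin 3 → MvPolynomial (Fin 4) k, (∀ i, (f i).IsHomogeneous (![2, 2, 4] i)) ∧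
        eval (fun x => coeff x.2 (f x.1)) Δ ≠ 0) ∧
      ∀ f : Fin 3 → MvPolynomial (Fin 4) k, (∀ i, (f i).IsHomogeneous (![2, 2, 4] i)) →
        eval (fun x => coeff x.2 (f x.1)) Δ ≠ 0 →
        ¬ IsLexseg (inLex (Ideal.span (Set.range f))) := by
  classical
  refine ⟨(X (0, single 0 2) * X (1, single 1 2) - X (1, single 0 2) * X (0, single 1 2)) ^ 2 -
    (X (0, single 0 2) * X (1, single 0 1 + single 1 1) -
      X (1, single 0 2) * X (0, single 0 1 + single 1 1)) *
    (X (0, single 0 1 + single 1 1) * X (1, single 1 2) -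
      X (1, single 0 1 + single 1 1) * X (0, single 1 2)),
    ⟨![X 0 ^ 2, X 1 ^ 2, X 0 ^ 4], fun i => ?_, ?_⟩, fun f hf h0 hL => ?_⟩
  · fin_cases i <;> exact isHomogeneous_X_pow _ _
  · have h1 : ∀ i : Fin 4, single i 2 ≠ single 0 1 + single 1 1 := fun i h => by
      have := congrArg (fun d => d i) h
      fin_cases i <;> simp at this
    simp [coeff_X_pow, h1, single_eq_single_iff]
  have hf0 : (f 0).IsHomogeneous 2 := hf 0
  have hf1 : (f 1).IsHomogeneous 2 := hf 1
  have hf2 : (f 2).IsHomogeneous 4 := hf 2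
  obtain ⟨b, c, e1, b1, c1, b2, c2, b3, c3⟩ := quad hf0
  obtain ⟨b', c', e1', b1', c1', b2', c2', b3', c3'⟩ := quad hf1
  simp only [map_sub, map_mul, map_pow, eval_X, ← b3, ← c3, ← b3', ← c3'] at h0
  generalize coeff (single 0 2) (f 0) = a at e1 h0
  generalize coeff (single 0 2) (f 1) = a' at e1' h0
  obtain ⟨R, hR⟩ : ∃ R, R = (C a * c' - C a' * c) ^ 2 - (C a * b' - C a' * b) * (b * c' - b' * c) :=
    ⟨_, rfl⟩
  have r0 : R ≠ 0 := fun h => h0 (by simpa [hR] using congrArg (eval (Pi.single 1 1)) h)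
  have r1 : R.IsHomogeneous 4 := hR ▸ (((c1'.C_mul _).sub (c1.C_mul _)).pow 2).sub
    (((b1'.C_mul _).sub (b1.C_mul _)).mul ((b1.mul c1').sub (b1'.mul c1)))
  have r2 : R.degreeOf 0 = 0 := by
    have h1 : ∀ p q : MvPolynomial (Fin 4) k, p.degreeOf 0 = 0 → q.degreeOf 0 = 0 →
        (p * q).degreeOf 0 = 0 := fun p q hp hq => by have := degreeOf_mul_le 0 p q; omega
    have h2 : ∀ p q : MvPolynomial (Fin 4) k, p.degreeOf 0 = 0 → q.degreeOf 0 = 0 →
        (p - q).degreeOf 0 = 0 := fun p q hp hq => by have := degreeOf_sub_le 0 p q; omega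
    rw [hR, sq]
    have h3 := fun x : k => degreeOf_C x (0 : Fin 4)
    have h4 := h2 _ _ (h1 _ _ (h3 a) c2') (h1 _ _ (h3 a') c2)
    exact h2 _ _ (h1 _ _ h4 h4) (h1 _ _ (h2 _ _ (h1 _ _ (h3 a) b2') (h1 _ _ (h3 a') b2))
      (h2 _ _ (h1 _ _ b2 c2') (h1 _ _ b2' c2)))
  have m := fun i => Ideal.subset_span (s := Set.range f) ⟨i, rfl⟩
  have r4 : R = (C a' * (C a * b' - C a' * b) * X 0 + b' * (C a * b' - C a' * b) -
      C a' * (C a * c' - C a' * c)) * f 0 - (C a * (C a * b' - C a' * b) * X 0 +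
      b * (C a * b' - C a' * b) - C a * (C a * c' - C a' * c)) * f 1 := by
    rw [hR, e1, e1']; ring
  have r3 : R ∈ Ideal.span (Set.range f) := by
    rw [r4]
    exact sub_mem (Ideal.mul_mem_left _ _ (m 0)) (Ideal.mul_mem_left _ _ (m 1))
  obtain ⟨u, hu⟩ : ∃ u, u = MonomialOrder.lex.degree R := ⟨_, rfl⟩
  have u0 := hu ▸ MonomialOrder.lex.degree_mem_support r0
  have u1 : u.degree = 4 := hom.1 r1 u (MvPolynomial.mem_support_iff.1 u0)
  have u2 : u 0 = 0 := Nat.le_zero.1 (degreeOf_le_iff.1 r2.le u u0)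
  have u3 : monomial u (1 : k) ∈ inLex (Ideal.span (Set.range f)) :=
    Ideal.subset_span ⟨u, ⟨R, r3, r0, hu.symm⟩, rfl⟩
  obtain ⟨T, hT⟩ : ∃ T, T = Finset.finsuppAntidiag (Finset.univ : Finset (Fin 4)) 2 := ⟨_, rfl⟩
  obtain ⟨W, hW⟩ : ∃ W, W = insert u ((Finset.finsuppAntidiag (Finset.univ : Finset (Fin 4)) 3).map
    (addLeftEmbedding (single 0 1))) := ⟨_, rfl⟩
  have t1 : T.card = 10 := by rw [hT, Finset.card_finsuppAntidiag_nat_eq_choose]; rfl
  have w1 : W.card = 21 := by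
    rw [hW, Finset.card_insert_of_notMem, Finset.card_map,
      Finset.card_finsuppAntidiag_nat_eq_choose]
    · rfl
    · simp only [Finset.mem_map, not_exists, not_and]
      rintro x - rfl
      simp at u2
  have w2 : ∀ w ∈ W, w.degree = 4 ∧ monomial w (1 : k) ∈ inLex (Ideal.span (Set.range f)) := by
    intro w hw
    simp only [hW, Finset.mem_insert, Finset.mem_map, Finset.mem_finsuppAntidiag] at hw
    rcases hw with rfl | ⟨x, ⟨h1, -⟩, rfl⟩
    · exact ⟨u1, u3⟩
    · have h2 : (addLeftEmbedding (single (0 : Fin 4) 1) x).degree = 4 := by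
        rw [addLeftEmbedding_apply, map_add, degree_single, degree_eq_sum, h1]
      exact ⟨h2, hL u _ (u1.trans h2.symm) u3 ⟨0, by simp, by simp [u2]⟩⟩
  let E : (T → k) →ₗ[k] MvPolynomial (Fin 4) k :=
    Fintype.linearCombination k fun t : T => monomial t.1 (1 : k)
  have hE : ∀ B : MvPolynomial (Fin 4) k, B.IsHomogeneous 2 → E (fun t => coeff t.1 B) = B := by
    intro B hB
    simp only [E, Fintype.linearCombination_apply, smul_monomial, smul_eq_mul, mul_one]
    rw [Finset.sum_coe_sort T fun t => monomial t (coeff t B)]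
    conv_rhs => rw [B.as_sum]
    refine (Finset.sum_subset (fun d hd => ?_) fun d _ hd => by simp [MvPolynomial.notMem_support_iff.1 hd]).symm
    simpa [hT, degree_eq_sum] using hom.1 hB d (MvPolynomial.mem_support_iff.1 hd)
  let Φ : ((T → k) × (T → k)) × k →ₗ[k] MvPolynomial (Fin 4) k :=
    (((LinearMap.mulRight k (f 0)).comp E).coprod ((LinearMap.mulRight k (f 1)).comp E)).coprod
      (LinearMap.toSpanSingleton k _ (f 2))
  have q1 : ∀ w : W, ∃ q : LinearMap.range Φ, coeff w.1 q.1 ≠ 0 ∧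
      ∀ w', toLex w.1 < toLex w' → coeff w' q.1 = 0 := by
    rintro ⟨w, hw⟩
    obtain ⟨h1, h2⟩ := w2 w hw
    obtain ⟨_, ⟨p, h3, h4, rfl⟩, h5⟩ := mem_ideal_span_monomial_image.1 h2 w (by simp)
    obtain ⟨v, rfl⟩ := exists_add_of_le h5
    obtain ⟨A, hA⟩ := Ideal.mem_span_range_iff_exists_fun.1 (Ideal.mul_mem_right (monomial v 1) _ h3)
    obtain ⟨B0, h6, h7⟩ := hc_mul hf0 2 (A 0)
    obtain ⟨B1, h8, h9⟩ := hc_mul hf1 2 (A 1)
    obtain ⟨B2, h10, h11⟩ := hc_mul hf2 0 (A 2)
    refine ⟨⟨homogeneousComponent 4 (p * monomial v 1), ((fun t => coeff t.1 B0,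
      fun t => coeff t.1 B1), coeff 0 B2), ?_⟩, ?_, fun w' h => ?_⟩
    · rw [← hA, Fin.sum_univ_three, map_add, map_add, h7, h9, h11,
        ← homogeneousComponent_eq_self h10]
      simp [Φ, hE _ h6, hE _ h8, smul_eq_C_mul]
    · simp only [coeff_homogeneousComponent, h1, if_true, coeff_mul_monomial, mul_one]
      exact MonomialOrder.lex.coeff_degree_ne_zero_iff.2 h4
    · simp only [coeff_homogeneousComponent]
      rw [MonomialOrder.lex.coeff_eq_zero_of_lt (lt_of_le_of_lt ?_ h), ite_self]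
      refine MonomialOrder.lex.degree_mul_le.trans ?_
      rw [MonomialOrder.degree_monomial, if_neg one_ne_zero]
      rfl
  choose q q2 q3 using q1
  have h1 : LinearIndependent k q := Fintype.linearIndependent_iff.2 fun g hg => by
    by_contra h
    obtain ⟨w, h1, h2⟩ := (Finset.univ.filter fun w => g w ≠ 0).exists_max_image
      (fun w : W => toLex w.1) (by simpa [Finset.filter_nonempty_iff] using h)
    have h3 := congrArg (fun x : LinearMap.range Φ => coeff w.1 x.1) hg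
    simp only [Submodule.coe_sum, Submodule.coe_smul, coeff_sum, coeff_smul, Submodule.coe_zero,
      coeff_zero] at h3
    rw [Finset.sum_eq_single w (fun w' _ h4 => ?_) (by simp)] at h3
    · exact mul_ne_zero (Finset.mem_filter.1 h1).2 (q2 w) h3
    · by_cases h5 : g w' = 0
      · simp [h5]
      · simp [q3 w' w.1 (lt_of_le_of_ne (h2 w' (by simpa using h5))
          fun h => h4 (Subtype.ext (toLex.injective h)))]
  have h2 := h1.fintype_card_le_finrank
  have h3 := Φ.finrank_range_add_finrank_ker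
  simp only [Fintype.card_coe, Module.finrank_prod, Module.finrank_fintype_fun_eq_card,
    Module.finrank_self, w1, t1] at h2 h3
  have h4 : ((fun t => coeff t.1 (f 1), fun t => coeff t.1 (-f 0)), 0) ∈ LinearMap.ker Φ := by
    simp only [Φ, LinearMap.mem_ker, LinearMap.coprod_apply, LinearMap.comp_apply, hE _ hf1,
      hE _ hf0.neg, LinearMap.mulRight_apply, map_zero]
    ring
  rw [Submodule.finrank_eq_zero.1 (show Module.finrank k (LinearMap.ker Φ) = 0 by omega),
    Submodule.mem_bot] at h4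
  have h5 := hE _ hf1
  have h6 := hE _ hf0.neg
  rw [(Prod.mk.inj (Prod.mk.inj h4).1).1, map_zero] at h5
  rw [(Prod.mk.inj (Prod.mk.inj h4).1).2, map_zero, zero_eq_neg] at h6
  exact r0 (by rw [r4, ← h5, h6]; ring)

end Pool.Agent.Results.MP_48c274_ag.TwoTwoFour
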